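import Pool.Agent.Lib.MP_4f615a_lc.Proof

open Pool.Agent.Lib.MP_4f615a_lc

universe u

/-- Neither GL.3 nor Grz.3 has the Lyndon positivity property. -/
theorem Pool.Agent.Results.MP_4f615a_lc.NoLPP.result : ¬ LPP.{u} GL3 ∧ ¬ LPP.{u} Grz3 :=
  ⟨gl3_not, grz3_not⟩
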